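import Mathlib
import Pool.Agent.H92.SG.Stmts

/-!
# Conjugation invariance of `Surf` (module SC of board sg7)
-/

namespace Pool.Agent.H35.SG

open Pool.Agent.H92.SG

theorem isBand_mem {n : ℕ} {x : B} (h : IsBand n x) : x ∈ Bn n := by
  obtain ⟨w, hw, i, hi, rfl | rfl⟩ := h
  · exact mul_mem (mul_mem hw (σ_mem_Bn hi)) (inv_mem hw)
  · exact mul_mem (mul_mem hw (inv_mem (σ_mem_Bn hi))) (inv_mem hw)

theorem isBand_conj {n : ℕ} {x g : B} (hg : g ∈ Bn n) (h : IsBand n x) :
    IsBand n (g * x * g⁻¹) := by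
  obtain ⟨w, hw, i, hi, rfl | rfl⟩ := h
  · exact ⟨g * w, mul_mem hg hw, i, hi, Or.inl (by group)⟩
  · exact ⟨g * w, mul_mem hg hw, i, hi, Or.inr (by group)⟩

theorem prod_conj (g : B) (l : List B) :
    (l.map fun x => g * x * g⁻¹).prod = g * l.prod * g⁻¹ := by
  induction l with
  | nil => simp
  | cons a l ih => rw [List.map_cons, List.prod_cons, List.prod_cons, ih]; group

/-- A set of strands closed under a permutation of the strands `< N`: the complement is closed
as well. -/
theorem compl_closed {N : ℕ} (f : Equiv.Perm ℕ) (h1 : ∀ i < N, f i < N) (S : Set ℕ)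
    (hS : ∀ i ∈ S, f i ∈ S) {i : ℕ} (hi : i < N) (hiS : i ∉ S) : f i ∉ S := by
  classical
  intro hf
  set T : Finset ℕ := (Finset.range N).filter (· ∈ S) with hT
  have hmap : T.image f ⊆ T := by
    intro y hy
    obtain ⟨x, hx, rfl⟩ := Finset.mem_image.mp hy
    rw [hT, Finset.mem_filter, Finset.mem_range] at hx ⊢
    exact ⟨h1 x hx.1, hS x hx.2⟩
  have hcard : (T.image f).card = T.card := Finset.card_image_of_injective _ f.injective
  have heq : T.image f = T := Finset.eq_of_subset_of_card_le hmap hcard.ge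
  have hmem : f i ∈ T := by
    rw [hT, Finset.mem_filter, Finset.mem_range]
    exact ⟨h1 i hi, hf⟩
  rw [← heq] at hmem
  obtain ⟨x, hx, hxe⟩ := Finset.mem_image.mp hmem
  have : x = i := f.injective hxe
  rw [hT, Finset.mem_filter] at hx
  exact hiS (this ▸ hx.2)

theorem conn_conj (hP : PermStmt) {N : ℕ} {g : B} (hg : g ∈ Bn N) {l : List B}
    (hl : ∀ x ∈ l, x ∈ Bn N) (hc : Conn N l) : Conn N (l.map fun x => g * x * g⁻¹) := by
  intro S h0 hS i hi
  have hN : 0 < N := by omega
  have hg' : g⁻¹ ∈ Bn N := inv_mem hg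
  have hinv : ∀ j, perm g (perm g⁻¹ j) = j := by
    intro j
    rw [map_inv]; simp
  have hcl : ∀ x ∈ l, ∀ j, perm g j ∈ S → perm g (perm x j) ∈ S := by
    intro x hx j hj
    have := hS (g * x * g⁻¹) (List.mem_map.mpr ⟨x, hx, rfl⟩) _ hj
    simpa [map_mul, map_inv, Equiv.Perm.mul_apply] using this
  have key : perm g 0 ∈ S := by
    by_contra h0g
    have := hc {j | perm g j ∉ S ∨ N ≤ j} (Or.inl h0g) (by
      intro x hx j hj
      by_cases hjN : N ≤ j
      · right
        rw [(hP N x (hl x hx)).1 j hjN]; exact hjN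
      · rcases hj with hj | hj
        · left
          have := compl_closed (N := N) (perm x) (hP N x (hl x hx)).2 {j | perm g j ∈ S}
            (fun i hi => hcl x hx i hi) (i := j) (by omega) hj
          exact this
        · exact absurd hj hjN)
    have h2 := this (perm g⁻¹ 0) ((hP N _ hg').2 0 hN)
    rcases h2 with h2 | h2
    · rw [hinv] at h2; exact h2 h0
    · exact absurd ((hP N _ hg').2 0 hN) (by omega)
  have h3 := hc {j | perm g j ∈ S} key (fun x hx j hj => hcl x hx j hj) (perm g⁻¹ i)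
    ((hP N _ hg').2 i hi)
  simpa only [Set.mem_ofPred_eq, hinv] using h3

theorem SC_thm (hP : PermStmt) : SurfConjStmt := by
  intro n β g e hg hs
  obtain ⟨b, l, h1, h2, h3, h4⟩ := hs
  have hg' : g ∈ Bn (n + b) := Bn_mono (by omega) hg
  refine ⟨b, l.map fun x => g * x * g⁻¹, ?_, ?_, ?_, ?_⟩
  · intro x hx
    obtain ⟨y, hy, rfl⟩ := List.mem_map.mp hx
    exact isBand_conj hg' (h1 y hy)
  · rw [prod_conj, h2]
  · rw [List.length_map]; exact h3
  · exact conn_conj hP hg' (fun x hx => isBand_mem (h1 x hx)) h4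

end Pool.Agent.H35.SG
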